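import Pool.Agent.N311.SH.Stm

/-!
Project SH, part NS: north-south homeomorphisms which are linear near the attracting point are
conjugate to linear maps.
-/

set_option autoImplicit false
open Set Metric Filter Topology
open scoped OnePoint

namespace Pool.Agent.N457.SH

open Pool.Agent.N311.SH

theorem mul_app (a b : Sph ≃ₜ Sph) (x : Sph) : (a * b) x = a (b x) := rfl

theorem one_app (x : Sph) : (1 : Sph ≃ₜ Sph) x = x := rfl

theorem inv_app (a : Sph ≃ₜ Sph) (n : ℕ) (x : Sph) : (a⁻¹ ^ n) ((a ^ n) x) = x := by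
  rw [← mul_app, inv_pow, inv_mul_cancel, one_app]

theorem app_inv (a : Sph ≃ₜ Sph) (n : ℕ) (x : Sph) : (a ^ n) ((a⁻¹ ^ n) x) = x := by
  rw [← mul_app, inv_pow, mul_inv_cancel, one_app]

theorem succ_app (a : Sph ≃ₜ Sph) (n : ℕ) (x : Sph) : (a ^ (n + 1)) x = a ((a ^ n) x) := by
  rw [pow_succ', mul_app]

theorem succ_app' (a : Sph ≃ₜ Sph) (n : ℕ) (x : Sph) : (a ^ (n + 1)) x = (a ^ n) (a x) := by
  rw [pow_succ, mul_app]

theorem add_app (a : Sph ≃ₜ Sph) (n m : ℕ) (x : Sph) :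
    (a ^ (n + m)) x = (a ^ n) ((a ^ m) x) := by
  rw [pow_add, mul_app]

/-- the open disc -/
def U (R : ℝ) : Set Sph := (fun z : ℂ => (z : Sph)) '' ball 0 R

theorem mem_U {R : ℝ} {w : Sph} : w ∈ U R ↔ ∃ z : ℂ, ‖z‖ < R ∧ w = (z : Sph) := by
  constructor
  · rintro ⟨z, hz, rfl⟩
    exact ⟨z, mem_ball_zero_iff.1 hz, rfl⟩
  · rintro ⟨z, hz, rfl⟩
    exact ⟨z, mem_ball_zero_iff.2 hz, rfl⟩

theorem U_open (R : ℝ) : IsOpen (U R) :=
  OnePoint.isOpenEmbedding_coe.isOpenMap _ isOpen_ball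

theorem infty_not_mem (R : ℝ) : (∞ : Sph) ∉ U R := by
  intro h
  obtain ⟨z, -, hz⟩ := mem_U.1 h
  exact OnePoint.infty_ne_coe z hz

section

variable {l : ℝ} (hl : 0 < l) (e : Bool) {R : ℝ}

theorem T_pow_infty (n : ℕ) : ((T l hl.ne' e) ^ n) ∞ = ∞ := by
  induction n with
  | zero => rfl
  | succ n ih => rw [succ_app, ih, T_infty]

theorem T_pow_coe (n : ℕ) (z : ℂ) : ∃ z' : ℂ, ((T l hl.ne' e) ^ n) (z : Sph) = (z' : Sph) ∧
    ‖z'‖ = l ^ n * ‖z‖ := by
  induction n with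
  | zero => exact ⟨z, rfl, by simp⟩
  | succ n ih =>
    obtain ⟨z', h1, h2⟩ := ih
    refine ⟨(l : ℂ) * cj e z', ?_, ?_⟩
    · rw [succ_app, h1, T_coe]
    · rw [norm_mul, norm_cj, Complex.norm_real, Real.norm_of_nonneg hl.le, h2]
      ring

theorem exists_pow (h1 : l < 1) (hR : 0 < R) (z : ℂ) :
    ∃ n, ((T l hl.ne' e) ^ n) (z : Sph) ∈ U R := by
  have h : Tendsto (fun n : ℕ => l ^ n * ‖z‖) atTop (𝓝 0) := by
    simpa using (tendsto_pow_atTop_nhds_zero_of_lt_one hl.le h1).mul_const ‖z‖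
  obtain ⟨n, hn⟩ := (h.eventually (gt_mem_nhds hR)).exists
  obtain ⟨z', h2, h3⟩ := T_pow_coe hl e n z
  exact ⟨n, mem_U.2 ⟨z', by rw [h3]; exact hn, h2⟩⟩

theorem T_mem (h1 : l < 1) {y : Sph} (hy : y ∈ U R) : T l hl.ne' e y ∈ U R := by
  obtain ⟨z, hz, rfl⟩ := mem_U.1 hy
  refine mem_U.2 ⟨(l : ℂ) * cj e z, ?_, T_coe _ _ _ _⟩
  rw [norm_mul, norm_cj, Complex.norm_real, Real.norm_of_nonneg hl.le]
  have := norm_nonneg z
  nlinarith

end

open Classical in
theorem ns : S_NS := by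
  intro g l hl e R hl1 hN
  obtain ⟨hR, hlin, p, hp⟩ := hN
  set S : Sph ≃ₜ Sph := T l hl.ne' e with hS
  -- `g = S` on the disc
  have hgS : ∀ y ∈ U R, g y = S y := by
    intro y hy
    obtain ⟨z, hz, rfl⟩ := mem_U.1 hy
    rw [hlin z hz.le, hS, T_coe]
  have hSU : ∀ y ∈ U R, S y ∈ U R := fun y hy => T_mem hl e hl1 hy
  have hgU : ∀ y ∈ U R, g y ∈ U R := fun y hy => by rw [hgS y hy]; exact hSU y hy
  have hSnU : ∀ n : ℕ, ∀ y ∈ U R, (S ^ n) y ∈ U R := by
    intro n
    induction n with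
    | zero => exact fun y hy => hy
    | succ n ih => intro y hy; rw [succ_app]; exact hSU _ (ih y hy)
  have hgn : ∀ n : ℕ, ∀ y ∈ U R, (g ^ n) y = (S ^ n) y := by
    intro n
    induction n with
    | zero => exact fun y hy => rfl
    | succ n ih =>
      intro y hy
      rw [succ_app, succ_app, ih y hy, hgS _ (hSnU n y hy)]
  have hgnU : ∀ n : ℕ, ∀ y ∈ U R, (g ^ n) y ∈ U R := fun n y hy => by
    rw [hgn n y hy]; exact hSnU n y hy
  -- the basins
  have hp' : ∀ N ∈ 𝓝 p, ∃ n : ℕ, ∀ w : Sph, w ∉ U R → ((g⁻¹) ^ n) w ∈ N := by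
    intro N hN
    obtain ⟨n, hn⟩ := hp N hN
    refine ⟨n, fun w hw => hn w fun z hz h => hw (mem_U.2 ⟨z, hz, h⟩)⟩
  have F3 : ∀ w : Sph, (∀ n : ℕ, (g ^ n) w ∉ U R) → w = p := by
    intro w hw
    by_contra hne
    obtain ⟨n, hn⟩ := hp' {w}ᶜ (isOpen_compl_singleton.mem_nhds (fun h => hne h.symm))
    have := hn _ (hw n)
    rw [inv_app] at this
    exact this rfl
  have F4 : ∀ n : ℕ, (g ^ n) p ∉ U R := by
    intro n hn
    have hop : IsOpen {w : Sph | (g ^ n) w ∈ U R} := (U_open R).preimage (g ^ n).continuous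
    obtain ⟨m, hm⟩ := hp' _ (hop.mem_nhds hn)
    have h1 : (g⁻¹ ^ n) ∞ ∉ U R := by
      intro h
      have := hgnU n _ h
      rw [app_inv] at this
      exact infty_not_mem R this
    have h2 : (g ^ n) ((g⁻¹ ^ m) ((g⁻¹ ^ n) ∞)) ∈ U R := hm _ h1
    have h3 := hgnU m _ h2
    rw [← add_app, add_comm, add_app, app_inv, app_inv] at h3
    exact infty_not_mem R h3
  have hgp : g p = p := by
    refine F3 _ fun n hn => F4 (n + 1) ?_
    rw [succ_app']
    exact hn
  -- the conjugating map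
  set σ : Sph → Sph := fun x =>
    if h : ∃ n, (S ^ n) x ∈ U R then (g⁻¹ ^ (Nat.find h)) ((S ^ (Nat.find h)) x) else p with hσ
  have hback : ∀ (k : ℕ), ∀ y ∈ U R, (g⁻¹ ^ k) ((S ^ k) y) = y := by
    intro k y hy
    rw [← hgn k y hy, inv_app]
  have hσn : ∀ (n : ℕ) (x : Sph), (S ^ n) x ∈ U R → σ x = (g⁻¹ ^ n) ((S ^ n) x) := by
    intro n x hx
    have h : ∃ n, (S ^ n) x ∈ U R := ⟨n, hx⟩
    have h1 : σ x = (g⁻¹ ^ (Nat.find h)) ((S ^ (Nat.find h)) x) := by
      simp only [hσ]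
      rw [dif_pos h]
    rw [h1]
    obtain ⟨k, hk⟩ := Nat.exists_eq_add_of_le (Nat.find_min' h hx)
    rw [hk, add_app g⁻¹, add_comm (Nat.find h) k, add_app S, hback k _ (Nat.find_spec h)]
  have hσi : σ ∞ = p := by
    simp only [hσ]
    rw [dif_neg]
    rintro ⟨n, hn⟩
    rw [hS, T_pow_infty hl e n] at hn
    exact infty_not_mem R hn
  have hex : ∀ z : ℂ, ∃ n, (S ^ n) (z : Sph) ∈ U R := fun z => exists_pow hl e hl1 hR z
  have hup : ∀ (n m : ℕ) (x : Sph), n ≤ m → (S ^ n) x ∈ U R → (S ^ m) x ∈ U R := by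
    intro n m x hnm hx
    obtain ⟨k, rfl⟩ := Nat.exists_eq_add_of_le hnm
    rw [add_comm, add_app]
    exact hSnU k _ hx
  have hfin : ∀ x : Sph, (¬ ∃ n, (S ^ n) x ∈ U R) → x = ∞ := by
    intro x h
    induction x using OnePoint.rec with
    | infty => rfl
    | coe z => exact absurd (hex z) h
  have hσp : ∀ x : Sph, (¬ ∃ n, (S ^ n) x ∈ U R) → σ x = p := by
    intro x h
    rw [hfin x h, hσi]
  have hσU : ∀ (n : ℕ) (x : Sph), (S ^ n) x ∈ U R → (g ^ n) (σ x) = (S ^ n) x := by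
    intro n x hx
    rw [hσn n x hx, app_inv]
  -- continuity
  have hcont : Continuous σ := by
    rw [continuous_iff_continuousAt]
    intro x
    by_cases h : ∃ n, (S ^ n) x ∈ U R
    · obtain ⟨n, hn⟩ := h
      have hop : IsOpen {w : Sph | (S ^ n) w ∈ U R} := (U_open R).preimage (S ^ n).continuous
      have h1 : ContinuousAt (fun w => (g⁻¹ ^ n) ((S ^ n) w)) x :=
        ((g⁻¹ ^ n).continuous.comp (S ^ n).continuous).continuousAt
      refine h1.congr ?_
      filter_upwards [hop.mem_nhds hn] with w hw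
      exact (hσn n w hw).symm
    · have hx : x = ∞ := hfin x h
      subst hx
      show Tendsto σ (𝓝 ∞) (𝓝 (σ ∞))
      rw [hσi]
      intro N hN
      obtain ⟨n, hn⟩ := hp' N hN
      have hcl : IsClosed ((fun z : ℂ => (z : Sph)) '' closedBall 0 R) :=
        ((isCompact_closedBall (0 : ℂ) R).image OnePoint.continuous_coe).isClosed
      have hop : IsOpen {w : Sph | (S ^ n) w ∉ (fun z : ℂ => (z : Sph)) '' closedBall 0 R} :=
        (hcl.preimage (S ^ n).continuous).isOpen_compl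
      have hmem : (∞ : Sph) ∈ {w : Sph | (S ^ n) w ∉ (fun z : ℂ => (z : Sph)) '' closedBall 0 R} := by
        rintro ⟨z, -, hz⟩
        rw [hS, T_pow_infty hl e n] at hz
        exact OnePoint.coe_ne_infty z hz
      rw [mem_map]
      filter_upwards [hop.mem_nhds hmem] with w hw
      by_cases h2 : ∃ m, (S ^ m) w ∈ U R
      · obtain ⟨m, hm⟩ := h2
        have hw2 : (S ^ n) w ∉ U R := by
          intro h3
          obtain ⟨z, hz, h4⟩ := mem_U.1 h3
          exact hw ⟨z, mem_closedBall_zero_iff.2 hz.le, h4.symm⟩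
        have hnm : n ≤ m := by
          by_contra hcon
          exact hw2 (hup m n w (by omega) hm)
        obtain ⟨k, rfl⟩ := Nat.exists_eq_add_of_le hnm
        have h5 : (g ^ n) (σ w) ∉ U R := by
          intro h6
          have a1 : (g ^ k) ((g ^ n) (σ w)) = (S ^ k) ((S ^ n) w) := by
            rw [← add_app, ← add_app, add_comm k n, hσn _ w hm, app_inv]
          have a3 : (S ^ k) ((g ^ n) (σ w)) = (S ^ k) ((S ^ n) w) := (hgn k _ h6).symm.trans a1
          have a4 := (S ^ k).injective a3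
          rw [a4] at h6
          exact hw2 h6
        have h9 := hn _ h5
        rwa [inv_app] at h9
      · have h3 : σ w = p := by
          simp only [hσ]
          rw [dif_neg h2]
        show σ w ∈ N
        rw [h3]
        exact mem_of_mem_nhds hN
  have hinj : Function.Injective σ := by
    intro x y hxy
    by_cases hx : ∃ n, (S ^ n) x ∈ U R
    · by_cases hy : ∃ n, (S ^ n) y ∈ U R
      · obtain ⟨n, hn⟩ := hx
        obtain ⟨m, hm⟩ := hy
        have h1 := hσU _ x (hup n (max n m) x (le_max_left _ _) hn)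
        have h2 := hσU _ y (hup m (max n m) y (le_max_right _ _) hm)
        rw [hxy] at h1
        exact (S ^ (max n m)).injective (h1.symm.trans h2)
      · obtain ⟨n, hn⟩ := hx
        have h1 := hσU n x hn
        rw [hxy, hσp y hy] at h1
        rw [← h1] at hn
        exact absurd hn (F4 n)
    · by_cases hy : ∃ n, (S ^ n) y ∈ U R
      · obtain ⟨m, hm⟩ := hy
        have h1 := hσU m y hm
        rw [← hxy, hσp x hx] at h1
        rw [← h1] at hm
        exact absurd hm (F4 m)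
      · rw [hfin x hx, hfin y hy]
  have hsurj : Function.Surjective σ := by
    intro w
    by_cases h : ∃ n, (g ^ n) w ∈ U R
    · obtain ⟨n, hn⟩ := h
      refine ⟨(S⁻¹ ^ n) ((g ^ n) w), ?_⟩
      rw [hσn n _ (by rw [app_inv]; exact hn), app_inv, inv_app]
    · refine ⟨∞, ?_⟩
      rw [hσi]
      exact (F3 w fun n hn => h ⟨n, hn⟩).symm
  have hequ : ∀ x, σ (S x) = g (σ x) := by
    intro x
    by_cases h : ∃ n, (S ^ n) x ∈ U R
    · obtain ⟨n, hn⟩ := h
      have h1 : (S ^ n) (S x) ∈ U R := by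
        rw [← succ_app', succ_app]
        exact hSU _ hn
      apply (g ^ n).injective
      rw [hσU n (S x) h1, ← succ_app', ← succ_app', succ_app, succ_app, hσU n x hn, hgS _ hn]
    · have h1 : x = ∞ := hfin x h
      have h2 : S ∞ = ∞ := T_infty _ _ _
      rw [h1, h2, hσi, hgp]
  set H : Sph ≃ₜ Sph := Continuous.homeoOfEquivCompactToT2
    (f := Equiv.ofBijective σ ⟨hinj, hsurj⟩) hcont with hH
  have hHσ : ∀ x, H x = σ x := fun x => rfl
  refine ⟨H⁻¹, ?_⟩
  rw [inv_inv]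
  ext x
  rw [mul_app, mul_app, hHσ, ← hequ, ← hHσ, ← mul_app, inv_mul_cancel, one_app]

end Pool.Agent.N457.SH
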